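import Pool.Agent.Work.MP_859ada_lc.Std.Env

/-!
# ROOT is in the counting hierarchy
-/

set_option autoImplicit false

namespace Pool.Agent.Work.MP_859ada_lc

open Pool.Agent.PT Pool.Agent.Work.MP_46935e_lc Finset Polynomial

/-! ### The two kinds of straight-line programs -/

/-- translation of gates -/
def toOp : Gate → RootCH.Op
  | .one => .one
  | .var _ => .var
  | .add i j => .add i j
  | .sub i j => .sub i j
  | .mul i j => .mul i j

theorem getD_map_toOp (p : List Gate) (k : ℕ) :
    (p.map toOp).getD k .one = toOp (p.getD k .one) := by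
  rw [show RootCH.Op.one = toOp .one from rfl, List.getD_map]

theorem vals_tab {A : Type*} [CommRing A] (x : A) (p : List Gate) (i : ℕ) :
    (vals (fun _ => x) p).getD i 0 =
      RootCH.tab (fun k => toOp (p.getD k .one)) x p.length i := by
  induction p using List.reverseRecOn generalizing i with
  | nil => simp [vals_nil, RootCH.tab]
  | append_singleton p g ih =>
    rw [vals_concat, List.length_append, List.length_singleton]
    simp only [RootCH.tab]
    have hc : RootCH.tab (fun k => toOp ((p ++ [g]).getD k .one)) x p.length =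
        RootCH.tab (fun k => toOp (p.getD k .one)) x p.length := by
      refine RootCH.tab_congr _ _ _ _ fun k hk => ?_
      rw [List.getD_append _ _ _ _ hk]
    have hg : (p ++ [g]).getD p.length .one = g := by
      rw [List.getD_append_right _ _ _ _ le_rfl]; simp
    rw [hc, hg]
    split_ifs with h
    · subst h
      rw [List.getD_append_right _ _ _ _ (by rw [length_vals]), length_vals, Nat.sub_self,
        List.getD_cons_zero]
      cases g with
      | one => rfl
      | var k => rfl
      | add a b =>
        change (vals (fun _ => x) p).getD a 0 + (vals (fun _ => x) p).getD b 0 =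
          RootCH.tab (fun k => toOp (p.getD k .one)) x p.length a +
            RootCH.tab (fun k => toOp (p.getD k .one)) x p.length b
        rw [ih, ih]
      | sub a b =>
        change (vals (fun _ => x) p).getD a 0 - (vals (fun _ => x) p).getD b 0 =
          RootCH.tab (fun k => toOp (p.getD k .one)) x p.length a -
            RootCH.tab (fun k => toOp (p.getD k .one)) x p.length b
        rw [ih, ih]
      | mul a b =>
        change (vals (fun _ => x) p).getD a 0 * (vals (fun _ => x) p).getD b 0 =
          RootCH.tab (fun k => toOp (p.getD k .one)) x p.length a *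
            RootCH.tab (fun k => toOp (p.getD k .one)) x p.length b
        rw [ih, ih]
    · rcases lt_or_gt_of_ne h with h1 | h1
      · rw [List.getD_append _ _ _ _ (by rw [length_vals]; exact h1)]
        exact ih i
      · rw [List.getD_eq_default _ _ (by
          rw [List.length_append, length_vals, List.length_singleton]; omega), ← ih,
          List.getD_eq_default _ _ (by rw [length_vals]; omega)]

theorem poly_map_toOp (p : List Gate) :
    RootCH.poly (p.map toOp) = value (fun _ => (X : ℤ[X])) p := by
  unfold RootCH.poly
  rw [value_eq_getD, vals_tab, List.length_map]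
  congr 1
  funext k
  exact getD_map_toOp p k

theorem valid_map_toOp (p : List Gate) (h : WF 1 p) (hne : p ≠ []) : RootCH.Valid (p.map toOp) := by
  refine ⟨by simpa using hne, fun k hk => ?_⟩
  rw [List.length_map] at hk
  rw [getD_map_toOp, List.getD_eq_getElem _ _ hk]
  have := h k hk
  revert this
  cases p[k] <;> simp [toOp, RootCH.Op.refs, Gate.Ok]

/-! ### The binary code -/

/-- the numbers describing a program -/
def nums (p : List Gate) : List ℕ := p.flatMap (fun g => [g.code.1, g.code.2.1, g.code.2.2])

theorem getD_nums (p : List Gate) (h : WF 1 p) (i : ℕ) (hi : i < 3 * p.length) :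
    (nums p).getD i 0 = ((p.map toOp).getD (i / 3) .one).entry (i % 3) := by
  have hk : i / 3 < p.length := by omega
  rw [getD_map_toOp, List.getD_eq_getElem _ _ hk]
  have e : i = (i / 3) * 3 + i % 3 := by omega
  have h1 := getD_flatMap (W := 3) (f := fun g : Gate => [g.code.1, g.code.2.1, g.code.2.2])
    (fun _ => rfl) p 0 hk (Nat.mod_lt i (by norm_num))
  rw [← e] at h1
  unfold nums
  rw [h1]
  have h2 := h _ hk
  have h3 : i % 3 = 0 ∨ i % 3 = 1 ∨ i % 3 = 2 := by omega
  revert h2
  cases p[i / 3] with
  | one => intro _; rcases h3 with h3 | h3 | h3 <;> rw [h3] <;> rfl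
  | var k =>
    intro hk'
    have : k = 0 := by simpa [Gate.Ok] using hk'
    subst this
    rcases h3 with h3 | h3 | h3 <;> rw [h3] <;> rfl
  | add a b => intro _; rcases h3 with h3 | h3 | h3 <;> rw [h3] <;> rfl
  | sub a b => intro _; rcases h3 with h3 | h3 | h3 <;> rw [h3] <;> rfl
  | mul a b => intro _; rcases h3 with h3 | h3 | h3 <;> rw [h3] <;> rfl

theorem length_nums (p : List Gate) : (nums p).length = 3 * p.length := by
  unfold nums
  rw [length_flatMap' (W := 3) (fun _ => rfl), mul_comm]

/-- the binary code of a program -/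
def cbits (p : List Gate) : List Bool := (nums p).flatMap (fun e => toB (p.length + 3) e)

/-- the padding -/
def ubits (p : List Gate) : List Bool := List.replicate p.length false ++ [true]

theorem val_ubits (p : List Gate) : val (ubits p) = 2 ^ p.length := by
  unfold ubits
  rw [val_append, val_replicate_false, List.length_replicate]
  simp [val]

theorem val_flatMap (w : ℕ) (l : List ℕ) (h : ∀ i < l.length, l.getD i 0 < 2 ^ w) :
    val (l.flatMap (fun e => toB w e)) = ∑ i ∈ range l.length, l.getD i 0 * 2 ^ (w * i) := by
  induction l with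
  | nil => simp [val]
  | cons e l ih =>
    rw [List.flatMap_cons, val_append, length_toB, val_toB, List.length_cons, sum_range_succ']
    have h0 := h 0 (by simp)
    rw [List.getD_cons_zero] at h0
    rw [ih fun i hi => by
      have := h (i + 1) (by simpa using hi)
      rwa [List.getD_cons_succ] at this, Nat.mod_eq_of_lt h0, Finset.mul_sum, List.getD_cons_zero,
      Nat.mul_zero, pow_zero, mul_one, add_comm]
    congr 1
    refine Finset.sum_congr rfl fun i _ => ?_
    rw [List.getD_cons_succ, mul_add, pow_add]
    ring

theorem val_cbits (p : List Gate) (h : WF 1 p) (hne : p ≠ []) :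
    val (cbits p) = RootCH.enc (p.map toOp) := by
  have hv := valid_map_toOp p h hne
  unfold cbits RootCH.enc
  rw [List.length_map, val_flatMap]
  · rw [length_nums]
    refine Finset.sum_congr rfl fun i hi => ?_
    rw [mem_range] at hi
    rw [getD_nums p h i hi]
  · intro i hi
    rw [length_nums] at hi
    rw [getD_nums p h i hi]
    have := RootCH.entry_lt hv i (by rw [List.length_map]; exact hi)
    rwa [List.length_map] at this

/-- the environment of a program -/
def envOf (p : List Gate) : List Bool := encPair (encPair ([], cbits p), ubits p)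

theorem env_envOf_zero (p : List Gate) : env (envOf p) 0 = 2 ^ p.length := by
  unfold envOf
  rw [env_pair, RootCH.cons_zero, val_ubits]

theorem env_envOf_one (p : List Gate) : env (envOf p) 1 = val (cbits p) := by
  unfold envOf
  rw [env_pair, RootCH.cons_succ, env_pair, RootCH.cons_zero]

theorem root_iff_envOf (p : List Gate) : ROOT p ↔ (p ≠ [] ∧ wfb 1 p = true) ∧
    RootCH.ROOT (env (envOf p) 0) (env (envOf p) 1) := by
  rw [wfb_iff]
  constructor
  · rintro ⟨h1, h2, h3⟩
    refine ⟨⟨h1, h2⟩, p.map toOp, valid_map_toOp p h2 h1, ?_, ?_, ?_⟩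
    · rw [env_envOf_zero, List.length_map]
    · rw [env_envOf_one, val_cbits p h2 h1]
    · rw [poly_map_toOp]; exact h3
  · rintro ⟨⟨h1, h2⟩, P, hP, hu, hc, hx⟩
    refine ⟨h1, h2, ?_⟩
    rw [env_envOf_zero] at hu
    rw [env_envOf_one, val_cbits p h2 h1] at hc
    have hv := valid_map_toOp p h2 h1
    have hl : p.length = P.length := Nat.pow_right_injective le_rfl hu
    have e1 := RootCH.dec_enc hP
    have e2 := RootCH.dec_enc hv
    rw [List.length_map, hc, hl, e1] at e2
    rw [← poly_map_toOp, ← e2]
    exact hx

/-! ### Polynomial time -/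

theorem toB_succ_right (n k : ℕ) : toB (n + 1) k = toB n k ++ [decide (k / 2 ^ n % 2 = 1)] := by
  induction n generalizing k with
  | zero => simp [toB]
  | succ n ih =>
    rw [toB, ih, toB, List.cons_append]
    congr 3
    rw [Nat.div_div_eq_div_mul, ← pow_succ']

section
variable {α : Type} [Enc α]

theorem PTF.toB {w n : α → ℕ} (hw : PTF w) (hn : PTF n) : PTF (fun x => toB (w x) (n x)) := by
  have h := PTF.nat_iterate_add (n := w) (init := fun x => ((n x, []) : ℕ × List Bool))
    (step := fun p : α × (ℕ × List Bool) => (p.2.1 / 2, decide (p.2.1 % 2 = 1) :: p.2.2)) hw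
    (by fun_prop) (by fun_prop) (fun _ => 6) (PB.const _) (fun x s => by
      obtain ⟨k, o⟩ := s
      show sz ((k / 2, decide (k % 2 = 1) :: o) : ℕ × List Bool) ≤ _
      rw [sz_pair, sz_pair, sz_cons, sz_nat, sz_nat]
      have := sz_bool (decide (k % 2 = 1))
      omega)
  refine (PTF.snd.comp h).reverse.congr fun x => ?_
  have key : ∀ i, (fun s : ℕ × List Bool => (s.1 / 2, decide (s.1 % 2 = 1) :: s.2))^[i] (n x, []) =
      (n x / 2 ^ i, (MP_859ada_lc.toB i (n x)).reverse) := by
    intro i
    induction i with
    | zero => simp [MP_859ada_lc.toB]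
    | succ i ih =>
      rw [Function.iterate_succ_apply', ih, toB_succ_right]
      simp only [List.reverse_append, List.reverse_cons, List.reverse_nil, List.nil_append,
        List.singleton_append, Nat.div_div_eq_div_mul, ← pow_succ]
  show ((fun s : ℕ × List Bool => (s.1 / 2, decide (s.1 % 2 = 1) :: s.2))^[w x]
    (n x, [])).2.reverse = _
  rw [key, List.reverse_reverse]

theorem PTF.nums {p : α → List Gate} (hp : PTF p) : PTF (fun x => nums (p x)) := by
  unfold MP_859ada_lc.nums
  fun_prop

theorem PTF.envOf {p : α → List Gate} (hp : PTF p) : PTF (fun x => envOf (p x)) := by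
  unfold MP_859ada_lc.envOf
  have h1 : PTF (fun x => cbits (p x)) := by
    unfold cbits
    exact PTF.flatMap' (f := fun x e => MP_859ada_lc.toB ((p x).length + 3) e)
      (PTF.toB (by fun_prop) (by fun_prop)) (PTF.nums hp)
  have h2 : PTF (fun x => ubits (p x)) := by
    unfold ubits
    fun_prop
  exact ptf_encPair.comp ((ptf_encPair.comp ((PTF.const []).pair h1)).pair h2)

end

/-- **ROOT is in the counting hierarchy.** -/
theorem rootL_inCH : InCH ROOTL := by
  have h1 : InCH (fun s => RootCH.ROOT (env (envOf (decProg s)) 0) (env (envOf (decProg s)) 1)) :=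
    (inCH_of_CH RootCH.CH.root).red (PTF.envOf (PTF.decProg PTF.id))
  have h2 : PTF (fun s => decide (encProg (decProg s) = s) && (decide (decProg s ≠ []) &&
      wfb 1 (decProg s))) := by fun_prop
  refine ((InCH.ofP h2).inter h1).congr fun s => ?_
  rw [Bool.and_eq_true, Bool.and_eq_true, decide_eq_true_eq, decide_eq_true_eq]
  unfold ROOTL Lang
  constructor
  · rintro ⟨⟨h3, h4⟩, h5⟩
    exact ⟨decProg s, h3.symm, (root_iff_envOf _).2 ⟨h4, h5⟩⟩
  · rintro ⟨p, rfl, hp⟩
    rw [decProg_encProg]
    have := (root_iff_envOf p).1 hp
    exact ⟨⟨rfl, this.1⟩, this.2⟩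

/-- The languages which reduce to ROOT lie in one level of the counting hierarchy. -/
theorem exists_level : ∃ k : ℕ, ∀ L : List Bool → Prop, Red L ROOTL → CLevel k L := by
  obtain ⟨k, hk⟩ := rootL_inCH
  refine ⟨k, fun L h => ?_⟩
  obtain ⟨f, hf, hL⟩ := h
  exact (hk.red (ptf_of_f hf)).congr fun x => (hL x).symm

end Pool.Agent.Work.MP_859ada_lc
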