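import Mathlib

/-!
# Bit strings and natural numbers (little endian)
-/

set_option autoImplicit false

namespace Pool.Agent.Work.MP_859ada_lc

/-- the value of a bit string, least significant bit first -/
def val : List Bool → ℕ
  | [] => 0
  | b :: l => b.toNat + 2 * val l

/-- the `n` lowest bits of `k` -/
def toB : ℕ → ℕ → List Bool
  | 0, _ => []
  | n + 1, k => decide (k % 2 = 1) :: toB n (k / 2)

theorem length_toB (n k : ℕ) : (toB n k).length = n := by
  induction n generalizing k with
  | zero => rfl
  | succ n ih => simp [toB, ih]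

theorem val_toB (n k : ℕ) : val (toB n k) = k % 2 ^ n := by
  induction n generalizing k with
  | zero => simp [toB, val, Nat.mod_one]
  | succ n ih =>
    rw [toB, val, ih, pow_succ', Nat.mod_mul]
    rcases Nat.mod_two_eq_zero_or_one k with h | h <;> simp [h]

theorem val_lt (l : List Bool) : val l < 2 ^ l.length := by
  induction l with
  | nil => simp [val]
  | cons b l ih =>
    rw [val, List.length_cons, pow_succ]
    have : b.toNat ≤ 1 := Bool.toNat_le b
    omega

theorem toB_val (l : List Bool) : toB l.length (val l) = l := by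
  induction l with
  | nil => rfl
  | cons b l ih =>
    rw [List.length_cons, toB, val]
    have h1 : (b.toNat + 2 * val l) / 2 = val l := by cases b <;> simp <;> omega
    have h2 : decide ((b.toNat + 2 * val l) % 2 = 1) = b := by cases b <;> simp
    rw [h1, h2, ih]

theorem val_append (l m : List Bool) : val (l ++ m) = val l + 2 ^ l.length * val m := by
  induction l with
  | nil => simp [val]
  | cons b l ih => rw [List.cons_append, val, val, ih, List.length_cons, pow_succ]; ring

theorem val_replicate_false (n : ℕ) : val (List.replicate n false) = 0 := by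
  induction n with
  | zero => rfl
  | succ n ih => rw [List.replicate_succ, val, ih]; rfl

/-- counting strings is counting numbers -/
theorem ncard_val (n : ℕ) (P : ℕ → Prop) :
    {y : List Bool | y.length = n ∧ P (val y)}.ncard = {k : ℕ | k < 2 ^ n ∧ P k}.ncard := by
  have h : {y : List Bool | y.length = n ∧ P (val y)} = toB n '' {k : ℕ | k < 2 ^ n ∧ P k} := by
    ext y
    simp only [Set.mem_ofPred_eq, Set.mem_image]
    constructor
    · rintro ⟨rfl, h2⟩
      exact ⟨val y, ⟨val_lt y, h2⟩, toB_val y⟩
    · rintro ⟨k, ⟨h1, h2⟩, rfl⟩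
      exact ⟨length_toB n k, by rw [val_toB, Nat.mod_eq_of_lt h1]; exact h2⟩
  rw [h]
  refine Set.InjOn.ncard_image ?_
  intro a ha b hb hab
  have := congrArg val hab
  rwa [val_toB, val_toB, Nat.mod_eq_of_lt ha.1, Nat.mod_eq_of_lt hb.1] at this

theorem finite_len (n : ℕ) (P : List Bool → Prop) : {y : List Bool | y.length = n ∧ P y}.Finite := by
  refine Set.Finite.subset (s := toB n '' {k : ℕ | k < 2 ^ n}) ?_ ?_
  · exact (Set.finite_lt_nat (2 ^ n)).image _
  · rintro y ⟨rfl, _⟩
    exact ⟨val y, val_lt y, toB_val y⟩

theorem ncard_lt (n : ℕ) : {k : ℕ | k < n}.ncard = n := by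
  have : {k : ℕ | k < n} = ((Finset.range n : Finset ℕ) : Set ℕ) := by ext; simp
  rw [this, Set.ncard_coe_finset, Finset.card_range]

theorem ncard_all (n : ℕ) : {y : List Bool | y.length = n}.ncard = 2 ^ n := by
  have := ncard_val n (fun _ => True)
  simp only [and_true] at this
  rw [this, ncard_lt]

theorem ncard_le_pow (n : ℕ) (P : List Bool → Prop) :
    {y : List Bool | y.length = n ∧ P y}.ncard ≤ 2 ^ n := by
  rw [← ncard_all n]
  refine Set.ncard_le_ncard (fun y hy => hy.1) ?_
  have := finite_len n (fun _ => True)
  simpa using this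

/-- splitting off the first bit -/
theorem ncard_succ (n : ℕ) (P : List Bool → Prop) :
    {y : List Bool | y.length = n + 1 ∧ P y}.ncard =
      {y : List Bool | y.length = n ∧ P (false :: y)}.ncard +
        {y : List Bool | y.length = n ∧ P (true :: y)}.ncard := by
  have h : {y : List Bool | y.length = n + 1 ∧ P y} =
      (List.cons false) '' {y : List Bool | y.length = n ∧ P (false :: y)} ∪
        (List.cons true) '' {y : List Bool | y.length = n ∧ P (true :: y)} := by
    ext y
    simp only [Set.mem_ofPred_eq, Set.mem_union, Set.mem_image]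
    constructor
    · rintro ⟨h1, h2⟩
      cases y with
      | nil => simp at h1
      | cons b y =>
        rw [List.length_cons] at h1
        cases b
        · exact Or.inl ⟨y, ⟨by omega, h2⟩, rfl⟩
        · exact Or.inr ⟨y, ⟨by omega, h2⟩, rfl⟩
    · rintro (⟨y, ⟨h1, h2⟩, rfl⟩ | ⟨y, ⟨h1, h2⟩, rfl⟩)
      · exact ⟨by rw [List.length_cons, h1], h2⟩
      · exact ⟨by rw [List.length_cons, h1], h2⟩
  rw [h, Set.ncard_union_eq ?_ ((finite_len n _).image _) ((finite_len n _).image _),
    Set.ncard_image_of_injective _ (List.cons_injective),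
    Set.ncard_image_of_injective _ (List.cons_injective)]
  rw [Set.disjoint_left]
  rintro y ⟨a, _, rfl⟩ ⟨b, _, h2⟩
  simp at h2

/-- ignoring additional bits -/
theorem ncard_take (m q : ℕ) (h : m ≤ q) (P : List Bool → Prop) :
    {y : List Bool | y.length = q ∧ P (y.take m)}.ncard =
      2 ^ (q - m) * {y : List Bool | y.length = m ∧ P y}.ncard := by
  have e : {y : List Bool | y.length = q ∧ P (y.take m)} =
      (fun z : List Bool × List Bool => z.1 ++ z.2) ''
        ({y : List Bool | y.length = m ∧ P y} ×ˢ {y : List Bool | y.length = q - m}) := by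
    ext y
    simp only [Set.mem_ofPred_eq, Set.mem_image, Set.mem_prod, Prod.exists]
    constructor
    · rintro ⟨h1, h2⟩
      refine ⟨y.take m, y.drop m, ⟨⟨?_, h2⟩, ?_⟩, List.take_append_drop m y⟩
      · rw [List.length_take]; omega
      · rw [List.length_drop]; omega
    · rintro ⟨a, b, ⟨⟨h1, h2⟩, h3⟩, rfl⟩
      refine ⟨by rw [List.length_append]; omega, ?_⟩
      rw [← h1, List.take_left]; exact h2
  rw [e, Set.InjOn.ncard_image, Set.ncard_prod, ncard_all, mul_comm]
  rintro ⟨a, b⟩ ⟨⟨h1, _⟩, _⟩ ⟨c, d⟩ ⟨⟨h2, _⟩, _⟩ hab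
  have := List.append_inj hab (h1.trans h2.symm)
  exact Prod.ext this.1 this.2

/-- additional bits which are zero -/
theorem ncard_pad (m q : ℕ) (h : m ≤ q) (P : List Bool → Prop) :
    {y : List Bool | y.length = q ∧ ((y.drop m).all (fun b => !b)) = true ∧ P (y.take m)}.ncard =
      {y : List Bool | y.length = m ∧ P y}.ncard := by
  have e : {y : List Bool | y.length = q ∧ ((y.drop m).all (fun b => !b)) = true ∧ P (y.take m)} =
      (fun z : List Bool => z ++ List.replicate (q - m) false) ''
        {y : List Bool | y.length = m ∧ P y} := by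
    ext y
    simp only [Set.mem_ofPred_eq, Set.mem_image]
    constructor
    · rintro ⟨h1, h2, h3⟩
      refine ⟨y.take m, ⟨?_, h3⟩, ?_⟩
      · rw [List.length_take]; omega
      · have h4 : y.drop m = List.replicate (q - m) false := by
          rw [List.eq_replicate_iff]
          refine ⟨by rw [List.length_drop]; omega, fun b hb => ?_⟩
          rw [List.all_eq_true] at h2
          simpa using h2 b hb
        rw [← h4]; exact List.take_append_drop m y
    · rintro ⟨a, ⟨h1, h2⟩, rfl⟩
      refine ⟨by rw [List.length_append, List.length_replicate]; omega, ?_, ?_⟩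
      · rw [← h1, List.drop_left, List.all_eq_true]
        intro b hb
        rw [List.eq_of_mem_replicate hb]; rfl
      · rw [← h1, List.take_left]; exact h2
  rw [e, Set.ncard_image_of_injective]
  intro a b hab
  exact List.append_cancel_right hab

/-- counting the large strings -/
theorem ncard_ge (q t : ℕ) :
    {y : List Bool | y.length = q ∧ t ≤ val y}.ncard = 2 ^ q - t := by
  rw [ncard_val q (fun k => t ≤ k)]
  have : {k : ℕ | k < 2 ^ q ∧ t ≤ k} = ((Finset.Ico t (2 ^ q) : Finset ℕ) : Set ℕ) := by
    ext k; simp; tauto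
  rw [this, Set.ncard_coe_finset, Nat.card_Ico]

end Pool.Agent.Work.MP_859ada_lc
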