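import Pool.Agent.Work.MP_859ada_lc.Defs

/-!
# MP_859ada_lc: the counting hierarchy

Wagner's counting hierarchy over the polynomial-time Turing machines of Mathlib.
-/

set_option autoImplicit false

namespace Pool.Agent.Work.MP_859ada_lc

open Turing

/-- The class `P`: languages which are decided by a polynomial-time Turing machine. -/
def InP (L : List Bool → Prop) : Prop :=
  ∃ R : List Bool → Bool,
    Nonempty (TM2ComputableInPolyTime (fun s : List Bool => s) (fun b : Bool => [b]) R) ∧
      ∀ x, L x ↔ R x = true

/-- The levels of the counting hierarchy (Wagner, Torán): `CLevel 0` is `P`, and `L` belongs to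
`CLevel (k + 1)` iff there are a polynomial `p` and a language `A` in `CLevel k` such that `x ∈ L`
iff more than half of the bit strings `y` of length `p (|x|)` satisfy `(x, y) ∈ A`. -/
def CLevel : ℕ → (List Bool → Prop) → Prop
  | 0, L => InP L
  | k + 1, L => ∃ (p : Polynomial ℕ) (A : List Bool → Prop), CLevel k A ∧
      ∀ x, L x ↔ 2 ^ p.eval x.length <
        2 * Set.ncard {y : List Bool | y.length = p.eval x.length ∧ A (encPair (x, y))}

/-- The counting hierarchy. -/
def InCH (L : List Bool → Prop) : Prop := ∃ k, CLevel k L

end Pool.Agent.Work.MP_859ada_lc
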