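import Pool.Agent.Work.MP_859ada_lc.Std.Level
import Pool.Agent.Work.MP_859ada_lc.CH.Final

/-!
# From the arithmetical counting hierarchy to the counting hierarchy
-/

set_option autoImplicit false

namespace Pool.Agent.Work.MP_859ada_lc

open Pool.Agent.PT Pool.Agent.Work.MP_46935e_lc

/-! ### Addition -/

/-- one step of the addition -/
def addStep (a b : List Bool) (s : Bool × List Bool) (i : ℕ) : Bool × List Bool :=
  if a.getD i false = b.getD i false then (a.getD i false, s.1 :: s.2) else (s.1, (!s.1) :: s.2)

/-- addition of binary numbers -/
def addB (a b : List Bool) : List Bool :=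
  let s := (List.range (a.length + b.length)).foldl (addStep a b) (false, [])
  (s.1 :: s.2).reverse

theorem addB_aux (a b : List Bool) (n : ℕ) :
    let s := (List.range n).foldl (addStep a b) (false, [])
    s.2.length = n ∧ val s.2.reverse + s.1.toNat * 2 ^ n = val (a.take n) + val (b.take n) := by
  induction n with
  | zero => simp [val]
  | succ n ih =>
    simp only at ih ⊢
    rw [List.range_succ, List.foldl_append, List.foldl_cons, List.foldl_nil]
    obtain ⟨ih1, ih2⟩ := ih
    set s := (List.range n).foldl (addStep a b) (false, [])
    rw [val_take_succ, val_take_succ]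
    unfold addStep
    have hrev : ∀ c : Bool, val ((c :: s.2).reverse) = val s.2.reverse + c.toNat * 2 ^ n := by
      intro c
      rw [List.reverse_cons, val_append, List.length_reverse, ih1]
      simp [val]
      ring
    cases ha : a.getD n false <;> cases hb : b.getD n false
    all_goals
      simp only [if_true, Bool.false_eq_true, Bool.true_eq_false, if_false]
      refine ⟨by rw [List.length_cons, ih1], ?_⟩
      rw [hrev, pow_succ]
      cases hs : s.1 <;> rw [hs] at ih2 <;>
        simp only [Bool.toNat_false, Bool.toNat_true, zero_mul, one_mul, add_zero, Bool.not_false,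
          Bool.not_true] at ih2 ⊢ <;> omega

theorem length_addB (a b : List Bool) : (addB a b).length = a.length + b.length + 1 := by
  unfold addB
  have := (addB_aux a b (a.length + b.length)).1
  simp only at this ⊢
  rw [List.length_reverse, List.length_cons, this]

theorem val_addB (a b : List Bool) : val (addB a b) = val a + val b := by
  unfold addB
  have h := addB_aux a b (a.length + b.length)
  simp only at h ⊢
  obtain ⟨h1, h2⟩ := h
  rw [List.take_of_length_le (by omega), List.take_of_length_le (by omega)] at h2
  rw [List.reverse_cons, val_append, List.length_reverse, h1, ← h2]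
  simp [val]
  ring

section
variable {α : Type} [Enc α]

theorem PTF.addB {a b : α → List Bool} (ha : PTF a) (hb : PTF b) :
    PTF (fun x => addB (a x) (b x)) := by
  unfold MP_859ada_lc.addB
  have h := PTF.foldl_add (l := fun x => List.range ((a x).length + (b x).length))
    (init := fun _ => ((false, []) : Bool × List Bool))
    (step := fun p : α × ((Bool × List Bool) × ℕ) => addStep (a p.1) (b p.1) p.2.1 p.2.2)
    (by fun_prop) (PTF.const _) (by unfold addStep; fun_prop) (fun _ => 20)
    (PB.const _) (fun x s i _ => by
      obtain ⟨c, o⟩ := s
      show sz (addStep (a x) (b x) (c, o) i) ≤ _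
      unfold addStep
      have h1 := sz_bool c
      have h2 := sz_bool (!c)
      have h3 := sz_bool ((a x).getD i false)
      split_ifs <;> simp only [sz_pair, sz_cons] <;> omega)
  exact ((PTF.fst.comp h).cons (PTF.snd.comp h)).reverse

end

/-! ### Multiplication -/

/-- multiplication of binary numbers -/
def mulB (a b : List Bool) : List Bool :=
  a.reverse.foldl (fun r c => addB (false :: r) (if c = true then b else [])) []

theorem val_mulB (a b : List Bool) : val (mulB a b) = val a * val b := by
  unfold mulB
  rw [List.foldl_reverse]
  induction a with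
  | nil => simp [val]
  | cons c a ih =>
    rw [List.foldr_cons, val_addB, val, val, ih]
    cases c
    · simp [val]; ring
    · simp; ring

theorem sz_bits (l : List Bool) : sz l ≤ 4 * l.length + 1 := by
  induction l with
  | nil => simp [sz_nil]
  | cons b x ih =>
    rw [sz_cons]
    have := sz_bool b
    simp only [List.length_cons]
    omega

theorem length_mul_aux (b l : List Bool) (r : List Bool) :
    (l.foldl (fun r c => addB (false :: r) (if c = true then b else [])) r).length ≤
      r.length + l.length * (b.length + 2) := by
  induction l generalizing r with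
  | nil => simp
  | cons c l ih =>
    rw [List.foldl_cons]
    refine (ih _).trans ?_
    rw [length_addB, List.length_cons, List.length_cons, Nat.succ_mul]
    split_ifs
    · omega
    · simp only [List.length_nil]; omega

section
variable {α : Type} [Enc α]

theorem PTF.mulB {a b : α → List Bool} (ha : PTF a) (hb : PTF b) :
    PTF (fun x => mulB (a x) (b x)) := by
  unfold MP_859ada_lc.mulB
  refine PTF.foldl (l := fun x => (a x).reverse) (init := fun _ => ([] : List Bool))
    (step := fun p : α × (List Bool × Bool) => MP_859ada_lc.addB (false :: p.2.1)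
      (if p.2.2 = true then b p.1 else [])) ha.reverse (PTF.const _) ?_
    (fun x => 4 * (sz (a x) * (sz (b x) + 2)) + 1) ?_ ?_
  · exact PTF.addB (by fun_prop) (by fun_prop)
  · exact ((PB.const 4).mul (ha.size.mul (hb.size.add (PB.const 2)))).add (PB.const 1)
  · intro x l1 l2 h
    refine (sz_bits _).trans ?_
    have h1 := length_mul_aux (b x) l1 []
    have h2 : l1.length ≤ (a x).length := by
      have := congrArg List.length h
      rw [List.length_reverse, List.length_append] at this
      omega
    have h3 := length_le_sz (a x)
    have h4 := length_le_sz (b x)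
    rw [List.length_nil, Nat.zero_add] at h1
    have h5 : l1.length * ((b x).length + 2) ≤ sz (a x) * (sz (b x) + 2) :=
      Nat.mul_le_mul (h2.trans h3) (by omega)
    have h6 : (l1.foldl (fun r c => MP_859ada_lc.addB (false :: r) (if c = true then b x else [])) []).length ≤
      sz (a x) * (sz (b x) + 2) := h1.trans h5
    show 4 * (l1.foldl (fun r c => MP_859ada_lc.addB (false :: r) (if c = true then b x else [])) []).length + 1
      ≤ _
    omega

end

/-! ### Bit length -/

/-- bit length of a binary number -/
def sizeB (l : List Bool) : ℕ :=
  l.reverse.foldl (fun n c => if n = 0 then (if c = true then 1 else 0) else n + 1) 0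

theorem sizeB_eq (l : List Bool) : sizeB l = Nat.size (val l) := by
  unfold sizeB
  rw [List.foldl_reverse]
  induction l with
  | nil => simp [val]
  | cons c l ih =>
    rw [List.foldr_cons, ih, val]
    have hb : c.toNat + 2 * val l = Nat.bit c (val l) := by
      rw [Nat.bit_val]; cases c <;> simp; ring
    rcases Nat.eq_zero_or_pos (val l) with h0 | h0
    · rw [h0]
      cases c <;> simp
    · have h1 : Nat.size (val l) ≠ 0 := by
        rw [Ne, Nat.size_eq_zero]; omega
      rw [if_neg h1, hb, Nat.size_bit]
      rw [← hb]; omega

section
variable {α : Type} [Enc α]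

theorem PTF.sizeB {a : α → List Bool} (ha : PTF a) : PTF (fun x => sizeB (a x)) := by
  unfold MP_859ada_lc.sizeB
  refine PTF.foldl_add (l := fun x => (a x).reverse) (init := fun _ => 0)
    (step := fun p : α × (ℕ × Bool) => if p.2.1 = 0 then (if p.2.2 = true then 1 else 0)
      else p.2.1 + 1) ha.reverse (PTF.const _) (by fun_prop) (fun _ => 4) (PB.const _)
    (fun x s c _ => ?_)
  show sz (if s = 0 then (if c = true then 1 else 0) else s + 1) ≤ _
  rw [sz_nat, sz_nat]
  split_ifs <;> omega

end

/-! ### Environments -/

/-- forget the last `k` blocks -/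
def popn : ℕ → List Bool → List Bool
  | 0, s => s
  | k + 1, s => popn k (dec2 s).1

/-- the `k`-th block -/
def blk (k : ℕ) (s : List Bool) : List Bool := (dec2 (popn k s)).2

/-- the environment coded by a string -/
def env (s : List Bool) : ℕ → ℕ := fun k => val (blk k s)

theorem env_pair (s y : List Bool) : env (encPair (s, y)) = RootCH.cons (val y) (env s) := by
  funext k
  cases k with
  | zero => simp [env, blk, popn, dec2_encPair, RootCH.cons]
  | succ k => simp [env, blk, popn, dec2_encPair, RootCH.cons]

theorem ptf_popn (k : ℕ) : PTF (popn k) := by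
  induction k with
  | zero => exact PTF.id
  | succ k ih => exact ih.comp ptf_d1

theorem ptf_blk (k : ℕ) : PTF (blk k) := ptf_d2.comp (ptf_popn k)

theorem ptf_len (J : List ℕ) : PTF (fun s => RootCH.len J (env s)) := by
  induction J with
  | nil => exact (PTF.const 0).congr fun s => by simp [RootCH.len]
  | cons j J ih =>
    refine ((PTF.sizeB (ptf_blk j)).add ih).congr fun s => ?_
    rw [sizeB_eq]
    simp [RootCH.len, env]

theorem inCH_eq {f g : List Bool → List Bool} (hf : PTF f) (hg : PTF g) :
    InCH (fun s => val (f s) = val (g s)) := by
  refine (InCH.ofP ((PTF.leB hf hg).and (PTF.leB hg hf))).congr fun s => ?_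
  rw [Bool.and_eq_true, leB_iff, leB_iff]
  omega

/-- **The arithmetical counting hierarchy is contained in the counting hierarchy.** -/
theorem inCH_of_CH {R : (ℕ → ℕ) → Prop} (h : RootCH.CH R) : InCH (fun s => R (env s)) := by
  induction h with
  | add i j k =>
    refine (inCH_eq (PTF.addB (ptf_blk i) (ptf_blk j)) (ptf_blk k)).congr fun s => ?_
    rw [val_addB]; rfl
  | mul i j k =>
    refine (inCH_eq (PTF.mulB (ptf_blk i) (ptf_blk j)) (ptf_blk k)).congr fun s => ?_
    rw [val_mulB]; rfl
  | not _ ih => exact ih.compl
  | and _ _ ih1 ih2 => exact ih1.inter ih2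
  | @ex J c R _ ih =>
    refine (ih.thr (m := fun s => (RootCH.len J (env s) + c) ^ c)
      (PTF.pow_const ((ptf_len J).add (PTF.const c)) c) (PTF.const [])).congr fun s => ?_
    simp only [env_pair, val]
    rw [ncard_val _ (fun y => R (RootCH.cons y (env s)))]
    rw [Set.ncard_pos ((Set.finite_lt_nat _).subset fun k hk => hk.1)]
    constructor
    · rintro ⟨y, h1, h2⟩; exact ⟨y, h1, h2⟩
    · rintro ⟨y, h1, h2⟩; exact ⟨y, h1, h2⟩
  | @count J c i R _ ih =>
    refine (ih.thr' (m := fun s => (RootCH.len J (env s) + c) ^ c)
      (PTF.pow_const ((ptf_len J).add (PTF.const c)) c) (ptf_blk i)).congr fun s => ?_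
    simp only [env_pair]
    rw [ncard_val _ (fun y => R (RootCH.cons y (env s)))]
    rfl

end Pool.Agent.Work.MP_859ada_lc
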