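import Pool.Agent.Work.MP_859ada_lc.Main
import Pool.Agent.Work.MP_859ada_lc.Std.Defs
import Pool.Agent.Work.MP_859ada_lc.Std.Bits

/-!
# Closure properties of the levels of the counting hierarchy
-/

set_option autoImplicit false

namespace Pool.Agent.Work.MP_859ada_lc

open Polynomial Pool.Agent.PT Turing Pool.Agent.Work.MP_46935e_lc

theorem inP_of_ptf {R : List Bool → Bool} (h : PTF R) : InP (fun x => R x = true) :=
  ⟨R, tm2_of_ptf h PTF.id (fun _ => rfl) (PTF.cons PTF.id (PTF.const [])), fun _ => Iff.rfl⟩

theorem ptf_of_inP {L : List Bool → Prop} (h : InP L) :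
    ∃ R : List Bool → Bool, PTF R ∧ ∀ x, L x ↔ R x = true := by
  obtain ⟨R, hR, hL⟩ := h
  exact ⟨R, ptf_of_tm2 (d := fun l => l.headD false) hR PTF.id (PTF.id.headD (PTF.const false))
    (fun _ => rfl), hL⟩

theorem CLevel.congr {k : ℕ} {L L' : List Bool → Prop} (h : CLevel k L) (e : ∀ x, L x ↔ L' x) :
    CLevel k L' := by
  have : L = L' := funext fun x => propext (e x)
  exact this ▸ h

theorem ptf_d1 : PTF (fun z : List Bool => (dec2 z).1) := PTF.fst.comp (ptf_dec2 PTF.id)
theorem ptf_d2 : PTF (fun z : List Bool => (dec2 z).2) := PTF.snd.comp (ptf_dec2 PTF.id)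

/-- closure under polynomial-time many-one reductions -/
theorem CLevel.red : ∀ {k : ℕ} {L : List Bool → Prop}, CLevel k L →
    ∀ {f : List Bool → List Bool}, PTF f → CLevel k (fun x => L (f x)) := by
  intro k
  induction k with
  | zero =>
    intro L h f hf
    obtain ⟨R, hR, hL⟩ := ptf_of_inP h
    exact CLevel.congr (k := 0) (inP_of_ptf (hR.comp hf)) fun x => (hL (f x)).symm
  | succ k ih =>
    rintro L ⟨p, A, hA, hL⟩ f hf
    have hm : PTF (fun x => p.eval (f x).length) := ptf_eval p hf.length
    obtain ⟨q, hq⟩ := exists_poly_of_ptf hm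
    have hg : PTF (fun z : List Bool => encPair (f (dec2 z).1,
        (dec2 z).2.take (p.eval (f (dec2 z).1).length))) :=
      ptf_encPair.comp ((hf.comp ptf_d1).pair (ptf_d2.take (hm.comp ptf_d1)))
    refine ⟨q, _, ih hA hg, fun x => ?_⟩
    change L (f x) ↔ _
    rw [hL]
    have h1 := ncard_take (p.eval (f x).length) (q.eval x.length) (hq x)
      (fun y => A (encPair (f x, y)))
    have h2 : {y : List Bool | y.length = q.eval x.length ∧
        A (encPair (f (dec2 (encPair (x, y))).1,
          (dec2 (encPair (x, y))).2.take (p.eval (f (dec2 (encPair (x, y))).1).length)))} =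
        {y : List Bool | y.length = q.eval x.length ∧
          A (encPair (f x, y.take (p.eval (f x).length)))} := by
      ext y
      simp only [dec2_encPair]
    rw [h2, h1]
    have h3 : 2 ^ q.eval x.length =
        2 ^ (q.eval x.length - p.eval (f x).length) * 2 ^ p.eval (f x).length := by
      rw [← pow_add]; congr 1; have := hq x; omega
    rw [h3]
    generalize {y : List Bool | y.length = p.eval (f x).length ∧ A (encPair (f x, y))}.ncard = N
    have h4 : 0 < 2 ^ (q.eval x.length - p.eval (f x).length) := by positivity
    constructor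
    · intro h5
      calc _ < 2 ^ (q.eval x.length - p.eval (f x).length) * (2 * N) :=
            Nat.mul_lt_mul_of_pos_left h5 h4
        _ = _ := by ring
    · intro h5
      have h6 : 2 ^ (q.eval x.length - p.eval (f x).length) * 2 ^ p.eval (f x).length <
          2 ^ (q.eval x.length - p.eval (f x).length) * (2 * N) := by
        calc _ < _ := h5
          _ = _ := by ring
      exact Nat.lt_of_mul_lt_mul_left h6

theorem CLevel.succ {k : ℕ} {L : List Bool → Prop} (h : CLevel k L) : CLevel (k + 1) L := by
  refine ⟨0, _, h.red ptf_d1, fun x => ?_⟩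
  simp only [eval_zero, pow_zero, dec2_encPair]
  by_cases hx : L x
  · have : {y : List Bool | y.length = 0 ∧ L x} = {[]} := by
      ext y; simp [hx]
    rw [this, Set.ncard_singleton]
    simp [hx]
  · have : {y : List Bool | y.length = 0 ∧ L x} = ∅ := by
      ext y; simp [hx]
    rw [this, Set.ncard_empty]
    simp [hx]

theorem CLevel.mono {k l : ℕ} {L : List Bool → Prop} (h : CLevel k L) (hkl : k ≤ l) :
    CLevel l L := by
  induction l, hkl using Nat.le_induction with
  | base => exact h
  | succ l _ ih => exact ih.succ

theorem CLevel.ofP {k : ℕ} {R : List Bool → Bool} (h : PTF R) : CLevel k (fun x => R x = true) :=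
  CLevel.mono (k := 0) (inP_of_ptf h) (Nat.zero_le k)

/-- case distinction with a polynomial-time test -/
theorem CLevel.ite : ∀ {k : ℕ} {L1 L2 : List Bool → Prop}, CLevel k L1 → CLevel k L2 →
    ∀ {c : List Bool → Bool}, PTF c →
      CLevel k (fun x => (c x = true ∧ L1 x) ∨ (c x = false ∧ L2 x)) := by
  intro k
  induction k with
  | zero =>
    intro L1 L2 h1 h2 c hc
    obtain ⟨R1, hR1, hL1⟩ := ptf_of_inP h1
    obtain ⟨R2, hR2, hL2⟩ := ptf_of_inP h2
    refine CLevel.congr (k := 0) (inP_of_ptf ((hc.and hR1).or (hc.not.and hR2))) fun x => ?_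
    rw [hL1, hL2]
    simp
  | succ k ih =>
    rintro L1 L2 ⟨p1, A1, hA1, hL1⟩ ⟨p2, A2, hA2, hL2⟩ c hc
    have hm1 : PTF (fun x : List Bool => p1.eval x.length) := ptf_eval p1 PTF.id.length
    have hm2 : PTF (fun x : List Bool => p2.eval x.length) := ptf_eval p2 PTF.id.length
    have hg1 : PTF (fun z : List Bool => encPair ((dec2 z).1,
        (dec2 z).2.take (p1.eval (dec2 z).1.length))) :=
      ptf_encPair.comp (ptf_d1.pair (ptf_d2.take (hm1.comp ptf_d1)))
    have hg2 : PTF (fun z : List Bool => encPair ((dec2 z).1,
        (dec2 z).2.take (p2.eval (dec2 z).1.length))) :=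
      ptf_encPair.comp (ptf_d1.pair (ptf_d2.take (hm2.comp ptf_d1)))
    refine ⟨p1 + p2, _, ih (hA1.red hg1) (hA2.red hg2) (hc.comp ptf_d1), fun x => ?_⟩
    have key : ∀ (p : Polynomial ℕ) (A : List Bool → Prop), p.eval x.length ≤
        (p1 + p2).eval x.length → ((2 ^ p.eval x.length <
        2 * {y : List Bool | y.length = p.eval x.length ∧ A (encPair (x, y))}.ncard) ↔
        2 ^ (p1 + p2).eval x.length < 2 * {y : List Bool | y.length = (p1 + p2).eval x.length ∧
          A (encPair (x, y.take (p.eval x.length)))}.ncard) := by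
      intro p A hle
      rw [ncard_take _ _ hle (fun y => A (encPair (x, y)))]
      have h3 : 2 ^ (p1 + p2).eval x.length =
          2 ^ ((p1 + p2).eval x.length - p.eval x.length) * 2 ^ p.eval x.length := by
        rw [← pow_add]; congr 1; omega
      rw [h3]
      generalize {y : List Bool | y.length = p.eval x.length ∧ A (encPair (x, y))}.ncard = N
      have h4 : 0 < 2 ^ ((p1 + p2).eval x.length - p.eval x.length) := by positivity
      constructor
      · intro h5
        calc _ < 2 ^ ((p1 + p2).eval x.length - p.eval x.length) * (2 * N) :=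
              Nat.mul_lt_mul_of_pos_left h5 h4
          _ = _ := by ring
      · intro h5
        have h6 : 2 ^ ((p1 + p2).eval x.length - p.eval x.length) * 2 ^ p.eval x.length <
            2 ^ ((p1 + p2).eval x.length - p.eval x.length) * (2 * N) := by
          calc _ < _ := h5
            _ = _ := by ring
        exact Nat.lt_of_mul_lt_mul_left h6
    simp only [dec2_encPair]
    cases hcx : c x
    · simp only [Bool.false_eq_true, false_and, true_and, false_or]
      rw [hL2, key p2 A2 (by simp)]
    · simp only [Bool.true_eq_false, false_and, true_and, or_false]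
      rw [hL1, key p1 A1 (by simp)]

/-- comparison of binary numbers -/
def leB (a b : List Bool) : Bool :=
  (List.range (a.length + b.length)).foldl
    (fun r i => if a.getD i false = b.getD i false then r else b.getD i false) true

theorem val_take_succ (l : List Bool) (n : ℕ) :
    val (l.take (n + 1)) = val (l.take n) + (l.getD n false).toNat * 2 ^ n := by
  induction l generalizing n with
  | nil => simp [val]
  | cons b l ih =>
    cases n with
    | zero => simp [val]
    | succ n =>
      rw [List.take_succ_cons, List.take_succ_cons, val, val, ih, List.getD_cons_succ, pow_succ]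
      ring

theorem val_take_lt (l : List Bool) (n : ℕ) : val (l.take n) < 2 ^ n := by
  refine (val_lt _).trans_le (Nat.pow_le_pow_right (by norm_num) ?_)
  rw [List.length_take]; omega

theorem leB_iff (a b : List Bool) : leB a b = true ↔ val a ≤ val b := by
  have key : ∀ n, (List.range n).foldl
      (fun r i => if a.getD i false = b.getD i false then r else b.getD i false) true = true ↔
      val (a.take n) ≤ val (b.take n) := by
    intro n
    induction n with
    | zero => simp [val]
    | succ n ih =>
      rw [List.range_succ, List.foldl_append, List.foldl_cons, List.foldl_nil, val_take_succ,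
        val_take_succ]
      have h1 := val_take_lt a n
      have h2 := val_take_lt b n
      cases ha : a.getD n false <;> cases hb : b.getD n false
      · simp only [if_true, Bool.toNat_false, zero_mul, add_zero]; exact ih
      · simp only [Bool.false_eq_true, if_false, Bool.toNat_false, Bool.toNat_true, zero_mul,
          one_mul, true_iff]
        omega
      · simp only [Bool.true_eq_false, if_false, Bool.toNat_false, Bool.toNat_true, zero_mul,
          one_mul, Bool.false_eq_true, false_iff]
        omega
      · simp only [if_true, Bool.toNat_true, one_mul]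
        rw [ih]; omega
  unfold leB
  rw [key, List.take_of_length_le (by omega), List.take_of_length_le (by omega)]

section
variable {α : Type} [Enc α]

theorem PTF.leB {a b : α → List Bool} (ha : PTF a) (hb : PTF b) :
    PTF (fun x => leB (a x) (b x)) := by
  unfold MP_859ada_lc.leB
  refine PTF.foldl_add (l := fun x => List.range ((a x).length + (b x).length))
    (init := fun _ => true)
    (step := fun p : α × (Bool × ℕ) => if (a p.1).getD p.2.2 false = (b p.1).getD p.2.2 false
      then p.2.1 else (b p.1).getD p.2.2 false) (by fun_prop) (PTF.const _) ?_ (fun _ => 3)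
    (PB.const _) (fun x s i _ => ?_)
  · fun_prop
  · have h1 := sz_bool (if (a x).getD i false = (b x).getD i false then s
      else (b x).getD i false)
    exact h1.trans (Nat.le_add_left _ _)

end

/-- counting with a strict threshold -/
theorem CLevel.thr {k : ℕ} {A : List Bool → Prop} (hA : CLevel k A) {m : List Bool → ℕ}
    (hm : PTF m) {t : List Bool → List Bool} (ht : PTF t) :
    CLevel (k + 1) (fun x => val (t x) <
      {y : List Bool | y.length = m x ∧ A (encPair (x, y))}.ncard) := by
  obtain ⟨q, hq⟩ := exists_poly_of_ptf hm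
  have hg : PTF (fun z : List Bool => encPair ((dec2 z).1, ((dec2 z).2.tail).take (m (dec2 z).1))) :=
    ptf_encPair.comp (ptf_d1.pair ((ptf_d2.tail).take (hm.comp ptf_d1)))
  have hc1 : PTF (fun z : List Bool => (dec2 z).2.headD false) := ptf_d2.headD (PTF.const _)
  have hc2 : PTF (fun z : List Bool => (((dec2 z).2.tail).drop (m (dec2 z).1)).all (fun b => !b)) :=
    PTF.all' (f := fun _ b => !b) (PTF.snd.not) ((ptf_d2.tail).drop (hm.comp ptf_d1))
  have hle : PTF (fun z : List Bool => leB (t (dec2 z).1) (dec2 z).2.tail) :=
    PTF.leB (ht.comp ptf_d1) ptf_d2.tail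
  have hF : CLevel k (fun _ => False) :=
    (CLevel.ofP (PTF.const false)).congr fun _ => by simp
  refine ⟨q + 1, _, CLevel.ite (CLevel.ofP hle) (CLevel.ite (hA.red hg) hF hc2) hc1,
    fun x => ?_⟩
  have e1 : (q + 1).eval x.length = q.eval x.length + 1 := by simp
  rw [e1, ncard_succ]
  simp only [dec2_encPair, List.headD_cons, List.tail_cons, Bool.false_eq_true, false_and,
    Bool.true_eq_false, false_or, or_false, true_and, and_false, leB_iff]
  rw [ncard_ge, ncard_pad (m x) (q.eval x.length) (hq x) (fun y => A (encPair (x, y)))]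
  have h1 := ncard_le_pow (m x) (fun y => A (encPair (x, y)))
  have h2 : 2 ^ m x ≤ 2 ^ q.eval x.length := Nat.pow_le_pow_right (by norm_num) (hq x)
  rw [pow_succ]
  omega

/-- closure under complement -/
theorem CLevel.compl : ∀ {k : ℕ} {L : List Bool → Prop}, CLevel k L → CLevel k (fun x => ¬ L x) := by
  intro k
  induction k with
  | zero =>
    intro L h
    obtain ⟨R, hR, hL⟩ := ptf_of_inP h
    refine CLevel.congr (k := 0) (inP_of_ptf hR.not) fun x => ?_
    rw [hL]; simp
  | succ k ih =>
    rintro L ⟨p, A, hA, hL⟩
    have hm1 : PTF (fun x : List Bool => p.eval x.length) := ptf_eval p PTF.id.length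
    -- strings of length p + 2
    have hm : PTF (fun x : List Bool => p.eval x.length + 1 + 1) := hm1.succ.succ
    have ht : PTF (fun x : List Bool => List.replicate (p.eval x.length) false ++ [true]) :=
      (hm1.replicate (PTF.const false)).append (PTF.const [true])
    have hg : PTF (fun z : List Bool => encPair ((dec2 z).1, (dec2 z).2.tail.tail)) :=
      ptf_encPair.comp (ptf_d1.pair ptf_d2.tail.tail)
    have hc1 : PTF (fun z : List Bool => (dec2 z).2.headD false) := ptf_d2.headD (PTF.const _)
    have hc2 : PTF (fun z : List Bool => ((dec2 z).2.tail).all (fun b => !b)) :=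
      PTF.all' (f := fun _ b => !b) (PTF.snd.not) ptf_d2.tail
    refine (CLevel.thr (CLevel.ite (CLevel.ofP hc2) ((ih hA).red hg) hc1) hm ht).congr fun x => ?_
    rw [hL, ncard_succ, val_append, val_replicate_false, List.length_replicate]
    simp only [dec2_encPair, List.headD_cons, List.tail_cons, Bool.false_eq_true, false_and,
      Bool.true_eq_false, false_or, or_false, true_and, val]
    rw [ncard_succ]
    simp only [List.tail_cons]
    have e1 : {y : List Bool | y.length = p.eval x.length + 1 ∧ (y.all fun b => !b) = true} =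
        {List.replicate (p.eval x.length + 1) false} := by
      ext y
      simp only [Set.mem_ofPred_eq, Set.mem_singleton_iff, List.eq_replicate_iff, List.all_eq_true,
        Bool.not_eq_eq_eq_not, Bool.not_true]
    rw [e1, Set.ncard_singleton]
    have e2 : {y : List Bool | y.length = p.eval x.length ∧ ¬ A (encPair (x, y))}.ncard =
        2 ^ p.eval x.length - {y : List Bool | y.length = p.eval x.length ∧
          A (encPair (x, y))}.ncard := by
      have hU : {y : List Bool | y.length = p.eval x.length ∧ ¬ A (encPair (x, y))} =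
          {y : List Bool | y.length = p.eval x.length} \ {y : List Bool | y.length =
            p.eval x.length ∧ A (encPair (x, y))} := by
        ext y
        simp only [Set.mem_ofPred_eq, Set.mem_sdiff]
        tauto
      have hsub : {y : List Bool | y.length = p.eval x.length ∧ A (encPair (x, y))} ⊆
          {y : List Bool | y.length = p.eval x.length} := fun y hy => hy.1
      rw [hU, Set.ncard_sdiff hsub (finite_len _ _), ncard_all]
    rw [e2]
    have h1 := ncard_le_pow (p.eval x.length) (fun y => A (encPair (x, y)))
    rw [Bool.toNat_true, mul_zero, add_zero, mul_one]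
    omega

/-- intersection -/
theorem CLevel.inter {k : ℕ} {L1 L2 : List Bool → Prop} (h1 : CLevel k L1) (h2 : CLevel k L2) :
    CLevel (k + 1) (fun x => L1 x ∧ L2 x) := by
  have hc1 : PTF (fun z : List Bool => (dec2 z).2.headD false) := ptf_d2.headD (PTF.const _)
  refine (CLevel.thr (CLevel.ite (h1.red ptf_d1) (h2.red ptf_d1) hc1) (PTF.const (0 + 1))
    (PTF.const [true])).congr fun x => ?_
  rw [ncard_succ]
  simp only [dec2_encPair, List.headD_cons, Bool.false_eq_true, false_and,
    Bool.true_eq_false, false_or, or_false, true_and, val]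
  have key : ∀ p : Prop, {y : List Bool | y.length = 0 ∧ p}.ncard ≤ 1 ∧
      ({y : List Bool | y.length = 0 ∧ p}.ncard = 1 ↔ p) := by
    intro p
    by_cases hp : p
    · have : {y : List Bool | y.length = 0 ∧ p} = {[]} := by ext y; simp [hp]
      rw [this, Set.ncard_singleton]; simp [hp]
    · have : {y : List Bool | y.length = 0 ∧ p} = ∅ := by ext y; simp [hp]
      rw [this, Set.ncard_empty]; simp [hp]
  obtain ⟨a1, a2⟩ := key (L1 x)
  obtain ⟨b1, b2⟩ := key (L2 x)
  rw [Bool.toNat_true]
  constructor
  · intro h
    exact ⟨a2.1 (by omega), b2.1 (by omega)⟩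
  · rintro ⟨h3, h4⟩
    have := a2.2 h3
    have := b2.2 h4
    omega

/-! ### the hierarchy -/

theorem InCH.congr {L L' : List Bool → Prop} (h : InCH L) (e : ∀ x, L x ↔ L' x) : InCH L' := by
  obtain ⟨k, hk⟩ := h
  exact ⟨k, hk.congr e⟩

theorem InCH.ofP {R : List Bool → Bool} (h : PTF R) : InCH (fun x => R x = true) :=
  ⟨0, CLevel.ofP h⟩

theorem InCH.red {L : List Bool → Prop} (h : InCH L) {f : List Bool → List Bool} (hf : PTF f) :
    InCH (fun x => L (f x)) := by
  obtain ⟨k, hk⟩ := h
  exact ⟨k, hk.red hf⟩

theorem InCH.compl {L : List Bool → Prop} (h : InCH L) : InCH (fun x => ¬ L x) := by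
  obtain ⟨k, hk⟩ := h
  exact ⟨k, hk.compl⟩

theorem InCH.inter {L1 L2 : List Bool → Prop} (h1 : InCH L1) (h2 : InCH L2) :
    InCH (fun x => L1 x ∧ L2 x) := by
  obtain ⟨k, hk⟩ := h1
  obtain ⟨l, hl⟩ := h2
  exact ⟨max k l + 1, (hk.mono (le_max_left k l)).inter (hl.mono (le_max_right k l))⟩

theorem InCH.thr {A : List Bool → Prop} (hA : InCH A) {m : List Bool → ℕ}
    (hm : PTF m) {t : List Bool → List Bool} (ht : PTF t) :
    InCH (fun x => val (t x) < {y : List Bool | y.length = m x ∧ A (encPair (x, y))}.ncard) := by
  obtain ⟨k, hk⟩ := hA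
  exact ⟨k + 1, hk.thr hm ht⟩

/-- counting with a threshold -/
theorem InCH.thr' {A : List Bool → Prop} (hA : InCH A) {m : List Bool → ℕ}
    (hm : PTF m) {t : List Bool → List Bool} (ht : PTF t) :
    InCH (fun x => val (t x) ≤ {y : List Bool | y.length = m x ∧ A (encPair (x, y))}.ncard) := by
  obtain ⟨k, hk⟩ := hA
  have hg : PTF (fun z : List Bool => encPair ((dec2 z).1, (dec2 z).2.tail)) :=
    ptf_encPair.comp (ptf_d1.pair ptf_d2.tail)
  have hc1 : PTF (fun z : List Bool => (dec2 z).2.headD false) := ptf_d2.headD (PTF.const _)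
  have hc2 : PTF (fun z : List Bool => ((dec2 z).2.tail).all (fun b => !b)) :=
    PTF.all' (f := fun _ b => !b) (PTF.snd.not) ptf_d2.tail
  refine ⟨k + 1, ((CLevel.thr (CLevel.ite (CLevel.ofP hc2) (hk.red hg) hc1) hm.succ ht)).congr
    fun x => ?_⟩
  rw [ncard_succ]
  simp only [dec2_encPair, List.headD_cons, List.tail_cons, Bool.false_eq_true, false_and,
    Bool.true_eq_false, false_or, or_false, true_and]
  have e1 : {y : List Bool | y.length = m x ∧ (y.all fun b => !b) = true} =
      {List.replicate (m x) false} := by
    ext y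
    simp only [Set.mem_ofPred_eq, Set.mem_singleton_iff, List.eq_replicate_iff, List.all_eq_true,
      Bool.not_eq_eq_eq_not, Bool.not_true]
  rw [e1, Set.ncard_singleton]
  omega

end Pool.Agent.Work.MP_859ada_lc
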